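import Pool.Agent.K1H59.LZ.Field

/-!
# Liouville numbers and the cardinality of the fields `LF 𝓕`
-/

set_option autoImplicit false

namespace Pool.Agent.K1H59.LZ

open Filter Cardinal Nat

/-- every Liouville number lies in one of the fields -/
lemma exists_filter_of_liouville {x : ℝ} (hx : Liouville x) : ∃ 𝓕 : Filter ℕ, 𝓕.NeBot ∧ 𝓕 ≤ atTop ∧ Appr 𝓕 x := by
  have h1 : ∀ k : ℕ, ∃ b : ℕ, k + 1 ≤ b ∧ ∃ a : ℤ, x ≠ a / b ∧ |x - a / b| < 1 / (b : ℝ) ^ k := fun k => by
    obtain ⟨b, hb, h⟩ := (frequently_atTop.1 (hx.frequently_exists_num k)) (k + 1)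
    exact ⟨b, hb, h⟩
  choose b hb a ha hab using h1
  refine ⟨map b atTop, inferInstance, ?_, 1, fun N => ?_⟩
  · exact tendsto_atTop_mono (fun k => (by have := hb k; omega : k ≤ b k)) tendsto_id
  · rw [eventually_map]
    filter_upwards [eventually_ge_atTop N] with k hk
    refine ⟨a k, b k, by have := hb k; omega, by rw [pow_one], (hab k).le.trans ?_⟩
    have hb1 : (1 : ℝ) ≤ b k := by exact_mod_cast (by have := hb k; omega : 1 ≤ b k)
    exact one_div_le_one_div_of_le (by positivity) (pow_le_pow_right₀ hb1 hk)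

/-- the sequence `3 ^ (k + 1)!` as a filter -/
def G3 : Filter ℕ := map (fun k => 3 ^ (k + 1)!) atTop

instance : G3.NeBot := by unfold G3; infer_instance

lemma G3_le : G3 ≤ atTop := by
  unfold G3
  refine tendsto_atTop_mono (fun k => ?_) tendsto_id
  have h1 : k + 1 ≤ (k + 1)! := Nat.self_le_factorial _
  have h2 : (k + 1)! < 3 ^ (k + 1)! := Nat.lt_pow_self (by norm_num)
  show k ≤ 3 ^ (k + 1)!
  omega

open Classical in
/-- the digits at the places `(k + 1)!` -/
noncomputable def dig (ε : ℕ → Bool) (n : ℕ) : Bool := decide (∃ k, n = (k + 1)! ∧ ε k = true)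

lemma fac_lt {k l : ℕ} (h : k < l) : (k + 1)! < (l + 1)! := (Nat.factorial_lt (by omega)).2 (by omega)

open Classical in
lemma dig_inj : Function.Injective dig := by
  intro ε ε' h
  funext k
  have key : ∀ ε : ℕ → Bool, dig ε (k + 1)! = ε k := by
    intro ε
    unfold dig
    by_cases hk : ε k = true
    · rw [hk]
      exact decide_eq_true ⟨k, rfl, hk⟩
    · rw [Bool.not_eq_true] at hk
      rw [hk]
      refine decide_eq_false ?_
      rintro ⟨l, h1, h2⟩
      have : k = l := by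
        rcases lt_trichotomy k l with g | g | g
        · exact absurd h1 (fac_lt g).ne
        · exact g
        · exact absurd h1 (fac_lt g).ne'
      rw [← this, hk] at h2
      exact Bool.false_ne_true h2
  rw [← key ε, ← key ε', h]

open Classical in
lemma dig_false {ε : ℕ → Bool} {k n : ℕ} (h1 : (k + 1)! < n) (h2 : n < (k + 2)!) : dig ε n = false := by
  unfold dig
  refine decide_eq_false ?_
  rintro ⟨l, rfl, -⟩
  rcases le_or_gt l k with g | g
  · have : (l + 1)! ≤ (k + 1)! := Nat.factorial_le (by omega)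
    omega
  · have : (k + 2)! ≤ (l + 1)! := Nat.factorial_le (by omega)
    omega

lemma appr_dig (ε : ℕ → Bool) : Appr G3 (cantorFunction (1 / 3) (dig ε)) := by
  refine ⟨1, fun N => ?_⟩
  unfold G3
  rw [eventually_map]
  filter_upwards [eventually_ge_atTop N] with k hk
  have hs := summable_cantor_function (c := 1 / 3) (dig ε) (by norm_num) (by norm_num)
  have hgeo : Summable (fun i : ℕ => (1 / 3 : ℝ) ^ i) := summable_geometric_of_lt_one (by norm_num) (by norm_num)
  refine ⟨∑ i ∈ Finset.range (k + 2)!, if dig ε i = true then (3 : ℤ) ^ ((k + 1)! - i) else 0, 3 ^ (k + 1)!,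
    by positivity, by rw [pow_one], ?_⟩
  have e1 : ((∑ i ∈ Finset.range (k + 2)!, if dig ε i = true then (3 : ℤ) ^ ((k + 1)! - i) else 0 : ℤ) : ℝ) /
      ((3 ^ (k + 1)! : ℕ) : ℝ) = ∑ i ∈ Finset.range (k + 2)!, cantorFunctionAux (1 / 3) (dig ε) i := by
    push_cast
    rw [Finset.sum_div]
    refine Finset.sum_congr rfl fun i hi => ?_
    rw [Finset.mem_range] at hi
    unfold cantorFunctionAux
    by_cases h : dig ε i = true
    · have hle : i ≤ (k + 1)! := by
        by_contra hcon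
        rw [dig_false (k := k) (by omega) hi] at h
        exact Bool.false_ne_true h
      rw [h]
      simp only [if_true, cond_true]
      rw [div_pow, one_pow, div_eq_div_iff (by positivity) (by positivity), one_mul, ← pow_add,
        Nat.sub_add_cancel hle]
    · rw [Bool.not_eq_true] at h
      rw [h]
      simp
  rw [e1]
  have e2 : cantorFunction (1 / 3) (dig ε) - ∑ i ∈ Finset.range (k + 2)!, cantorFunctionAux (1 / 3) (dig ε) i =
      ∑' i : ℕ, cantorFunctionAux (1 / 3) (dig ε) (i + (k + 2)!) := by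
    unfold cantorFunction
    rw [← hs.sum_add_tsum_nat_add (k + 2)!]
    ring
  rw [e2]
  have hb : ∀ n, 0 ≤ cantorFunctionAux (1 / 3) (dig ε) n ∧ cantorFunctionAux (1 / 3) (dig ε) n ≤ (1 / 3 : ℝ) ^ n := by
    intro n
    unfold cantorFunctionAux
    cases dig ε n
    · simp
    · simp
  have hs2 : Summable (fun i : ℕ => cantorFunctionAux (1 / 3) (dig ε) (i + (k + 2)!)) :=
    (summable_nat_add_iff (k + 2)!).2 hs
  have hg2 : Summable (fun i : ℕ => (1 / 3 : ℝ) ^ (i + (k + 2)!)) := (summable_nat_add_iff (k + 2)!).2 hgeo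
  have h3 : ∑' i : ℕ, cantorFunctionAux (1 / 3) (dig ε) (i + (k + 2)!) ≤ ∑' i : ℕ, (1 / 3 : ℝ) ^ (i + (k + 2)!) :=
    hs2.tsum_le_tsum (fun i => (hb _).2) hg2
  have h4 : ∑' i : ℕ, (1 / 3 : ℝ) ^ (i + (k + 2)!) = (3 / 2) * (1 / 3) ^ (k + 2)! := by
    simp_rw [pow_add]
    rw [tsum_mul_right, tsum_geometric_of_lt_one (by norm_num) (by norm_num)]
    norm_num
  rw [abs_of_nonneg (tsum_nonneg fun i => (hb _).1)]
  refine h3.trans (h4.le.trans ?_)
  have h5 : N * (k + 1)! + 1 ≤ (k + 2)! := by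
    rw [Nat.factorial_succ (k + 1)]
    have h6 : (N + 1) * (k + 1)! ≤ (k + 1 + 1) * (k + 1)! := Nat.mul_le_mul_right _ (by omega)
    have h7 : 1 ≤ (k + 1)! := Nat.factorial_pos _
    nlinarith
  have h8 : (1 / 3 : ℝ) ^ (k + 2)! ≤ (1 / 3) ^ (N * (k + 1)! + 1) :=
    pow_le_pow_of_le_one (by norm_num) (by norm_num) h5
  have h9 : (1 / 3 : ℝ) ^ (N * (k + 1)! + 1) = 1 / ((3 ^ (k + 1)! : ℕ) : ℝ) ^ N * (1 / 3) := by
    push_cast
    rw [pow_succ, mul_comm N, pow_mul, div_pow, one_pow, div_pow, one_pow]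
  have h10 : 0 < 1 / ((3 ^ (k + 1)! : ℕ) : ℝ) ^ N := by positivity
  rw [h9] at h8
  nlinarith

/-- one of the fields has the cardinality of the continuum -/
lemma card_G3 : #(LF G3 G3_le) = 𝔠 := by
  apply le_antisymm
  · rw [← mk_real]
    exact mk_subtype_le _
  · have h1 : #(ℕ → Bool) = 𝔠 := by simp
    rw [← h1]
    refine mk_le_of_injective (f := fun ε : ℕ → Bool => (⟨cantorFunction (1 / 3) (dig ε), appr_dig ε⟩ : LF G3 G3_le)) ?_
    intro ε ε' h
    have h2 := congrArg Subtype.val h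
    exact dig_inj (cantorFunction_injective (by norm_num) (by norm_num) h2)

end Pool.Agent.K1H59.LZ
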