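import Mathlib

/-!
# Fields of real numbers which are approximable to infinite order along a common sequence
-/

set_option autoImplicit false

namespace Pool.Agent.K1H59.LZ

open Filter

/-- `x` is approximable to infinite order along the filter `𝓕` of natural numbers: there is an exponent `C` such that
for every `N`, for `𝓕`-almost all `n`, there is a fraction `p / q` with denominator `q ≤ n ^ C` such that
`|x - p / q| ≤ 1 / n ^ N`. -/
def Appr (𝓕 : Filter ℕ) (x : ℝ) : Prop :=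
  ∃ C : ℕ, ∀ N : ℕ, ∀ᶠ n in 𝓕, ∃ (p : ℤ) (q : ℕ), 0 < q ∧ q ≤ n ^ C ∧ |x - p / q| ≤ 1 / (n : ℝ) ^ N

variable {𝓕 : Filter ℕ}

lemma appr_rat (h𝓕 : 𝓕 ≤ atTop) (r : ℚ) : Appr 𝓕 r := by
  refine ⟨1, fun N => ?_⟩
  filter_upwards [h𝓕 (eventually_ge_atTop r.den)] with n hn
  refine ⟨r.num, r.den, r.den_pos, by simpa using hn, ?_⟩
  have : (r : ℝ) = (r.num : ℝ) / (r.den : ℝ) := by
    exact_mod_cast (Rat.num_div_den r).symm
  rw [← this, sub_self, abs_zero]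
  positivity

lemma appr_neg {x : ℝ} (hx : Appr 𝓕 x) : Appr 𝓕 (-x) := by
  obtain ⟨C, hC⟩ := hx
  refine ⟨C, fun N => ?_⟩
  filter_upwards [hC N] with n hn
  obtain ⟨p, q, h1, h2, h3⟩ := hn
  refine ⟨-p, q, h1, h2, ?_⟩
  have : -x - ((-p : ℤ) : ℝ) / q = -(x - p / q) := by push_cast; ring
  rw [this, abs_neg]
  exact h3

lemma pow_aux {n : ℕ} {A : ℝ} (N : ℕ) (hn : 0 < n) (hA : A ≤ n) : A * (1 / (n : ℝ) ^ (N + 1)) ≤ 1 / (n : ℝ) ^ N := by
  have h0 : (0 : ℝ) < n := by exact_mod_cast hn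
  rw [pow_succ, mul_one_div, div_le_div_iff₀ (by positivity) (by positivity), one_mul, mul_comm]
  exact mul_le_mul_of_nonneg_left hA (by positivity)

lemma appr_add (h𝓕 : 𝓕 ≤ atTop) {x y : ℝ} (hx : Appr 𝓕 x) (hy : Appr 𝓕 y) : Appr 𝓕 (x + y) := by
  obtain ⟨C, hC⟩ := hx
  obtain ⟨D, hD⟩ := hy
  refine ⟨C + D, fun N => ?_⟩
  filter_upwards [hC (N + 1), hD (N + 1), h𝓕 (eventually_ge_atTop 2)] with n h1 h2 h3
  obtain ⟨p, q, a1, a2, a3⟩ := h1
  obtain ⟨p', q', b1, b2, b3⟩ := h2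
  refine ⟨p * q' + p' * q, q * q', Nat.mul_pos a1 b1, ?_, ?_⟩
  · rw [pow_add]; exact Nat.mul_le_mul a2 b2
  · have hq : (q : ℝ) ≠ 0 := by exact_mod_cast a1.ne'
    have hq' : (q' : ℝ) ≠ 0 := by exact_mod_cast b1.ne'
    have e : x + y - ((p * q' + p' * q : ℤ) : ℝ) / ((q * q' : ℕ) : ℝ) = (x - p / q) + (y - p' / q') := by
      push_cast
      field_simp
      ring
    rw [e]
    calc |x - p / q + (y - p' / q')| ≤ |x - p / q| + |y - p' / q'| := abs_add_le _ _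
      _ ≤ 1 / (n : ℝ) ^ (N + 1) + 1 / (n : ℝ) ^ (N + 1) := add_le_add a3 b3
      _ = 2 * (1 / (n : ℝ) ^ (N + 1)) := by ring
      _ ≤ 1 / (n : ℝ) ^ N := pow_aux N (by omega) (by exact_mod_cast h3)

lemma appr_mul (h𝓕 : 𝓕 ≤ atTop) {x y : ℝ} (hx : Appr 𝓕 x) (hy : Appr 𝓕 y) : Appr 𝓕 (x * y) := by
  obtain ⟨C, hC⟩ := hx
  obtain ⟨D, hD⟩ := hy
  obtain ⟨m, hm⟩ := exists_nat_ge (|x| + |y| + 1)
  refine ⟨C + D, fun N => ?_⟩
  filter_upwards [hC (N + 1), hD (N + 1), h𝓕 (eventually_ge_atTop (m + 1))] with n h1 h2 h3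
  obtain ⟨p, q, a1, a2, a3⟩ := h1
  obtain ⟨p', q', b1, b2, b3⟩ := h2
  refine ⟨p * p', q * q', Nat.mul_pos a1 b1, ?_, ?_⟩
  · rw [pow_add]; exact Nat.mul_le_mul a2 b2
  · have hq : (q : ℝ) ≠ 0 := by exact_mod_cast a1.ne'
    have hq' : (q' : ℝ) ≠ 0 := by exact_mod_cast b1.ne'
    have e : x * y - ((p * p' : ℤ) : ℝ) / ((q * q' : ℕ) : ℝ) =
        x * (y - p' / q') + (x - p / q) * (y - (y - p' / q')) := by
      push_cast
      field_simp
      ring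
    have hn1 : (1 : ℝ) ≤ n := by exact_mod_cast (by omega : 1 ≤ n)
    have hE : 1 / (n : ℝ) ^ (N + 1) ≤ 1 := by
      rw [div_le_one (by positivity)]
      exact one_le_pow₀ hn1
    have h4 : |y - (y - p' / q')| ≤ |y| + 1 := by
      calc |y - (y - p' / q')| ≤ |y| + |y - p' / q'| := abs_sub _ _
        _ ≤ |y| + 1 := by linarith
    rw [e]
    calc |x * (y - p' / q') + (x - p / q) * (y - (y - p' / q'))|
        ≤ |x * (y - p' / q')| + |(x - p / q) * (y - (y - p' / q'))| := abs_add_le _ _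
      _ = |x| * |y - p' / q'| + |x - p / q| * |y - (y - p' / q')| := by rw [abs_mul, abs_mul]
      _ ≤ |x| * (1 / (n : ℝ) ^ (N + 1)) + 1 / (n : ℝ) ^ (N + 1) * (|y| + 1) := by
          apply add_le_add
          · exact mul_le_mul_of_nonneg_left b3 (abs_nonneg _)
          · exact mul_le_mul a3 h4 (abs_nonneg _) (by positivity)
      _ = (|x| + |y| + 1) * (1 / (n : ℝ) ^ (N + 1)) := by ring
      _ ≤ 1 / (n : ℝ) ^ N := by
          apply pow_aux N (by omega)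
          have : (m : ℝ) + 1 ≤ n := by exact_mod_cast h3
          linarith

lemma appr_inv (h𝓕 : 𝓕 ≤ atTop) {x : ℝ} (hx : Appr 𝓕 x) : Appr 𝓕 x⁻¹ := by
  rcases eq_or_ne x 0 with rfl | hx0
  · rw [inv_zero]
    exact_mod_cast appr_rat h𝓕 0
  obtain ⟨C, hC⟩ := hx
  have hxp : 0 < |x| := abs_pos.2 hx0
  obtain ⟨m, hm⟩ := exists_nat_ge (|x| + 1 + 2 / |x| + 2 / |x| ^ 2)
  have hm1 : |x| + 1 ≤ m := by
    have h1 : 0 ≤ 2 / |x| := by positivity
    have h2 : 0 ≤ 2 / |x| ^ 2 := by positivity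
    linarith
  have hm2 : 2 / |x| ≤ m := by
    have h2 : 0 ≤ 2 / |x| ^ 2 := by positivity
    linarith
  have hm3 : 2 / |x| ^ 2 ≤ m := by
    have h1 : 0 ≤ 2 / |x| := by positivity
    linarith
  refine ⟨C + 1, fun N => ?_⟩
  filter_upwards [hC (N + 1), h𝓕 (eventually_ge_atTop (m + 1))] with n h1 h3
  obtain ⟨p, q, a1, a2, a3⟩ := h1
  have hn : (m : ℝ) + 1 ≤ n := by exact_mod_cast h3
  have hn0 : (0 : ℝ) < n := by
    have : (0 : ℝ) ≤ m := by positivity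
    linarith
  have hn1 : (1 : ℝ) ≤ n := by
    have : (0 : ℝ) ≤ m := by positivity
    linarith
  have hq : (0 : ℝ) < (q : ℝ) := by exact_mod_cast a1
  -- the error is at most `|x| / 2`
  have hE : 1 / (n : ℝ) ^ (N + 1) ≤ |x| / 2 := by
    have g1 : 1 / (n : ℝ) ^ (N + 1) ≤ 1 / n := by
      apply one_div_le_one_div_of_le hn0
      calc (n : ℝ) = n ^ 1 := (pow_one _).symm
        _ ≤ n ^ (N + 1) := pow_le_pow_right₀ hn1 (by omega)
    have g2 : 2 / |x| ≤ n := by linarith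
    have g3 : 1 / (n : ℝ) ≤ |x| / 2 := by
      rw [div_le_iff₀ hn0]
      rw [div_le_iff₀ hxp] at g2
      linarith
    linarith
  have hr : |x| / 2 ≤ |(p : ℝ) / q| := by
    have : |x| ≤ |x - p / q| + |(p : ℝ) / q| := by
      calc |x| = |(x - p / q) + p / q| := by ring_nf
        _ ≤ _ := abs_add_le _ _
    linarith
  have hr0 : 0 < |(p : ℝ) / q| := by linarith [half_pos hxp]
  have hr1 : |(p : ℝ) / q| ≤ |x| + 1 := by
    have h5 : |(p : ℝ) / q| ≤ |x| + |x - p / q| := by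
      calc |(p : ℝ) / q| = |x - (x - p / q)| := by ring_nf
        _ ≤ _ := abs_sub _ _
    have h6 : 1 / (n : ℝ) ^ (N + 1) ≤ 1 := by
      rw [div_le_one (by positivity)]
      exact one_le_pow₀ hn1
    linarith
  have hp0 : p ≠ 0 := by
    rintro rfl
    simp at hr0
  have hp : (p : ℝ) ≠ 0 := by exact_mod_cast hp0
  refine ⟨p.sign * q, p.natAbs, Int.natAbs_pos.2 hp0, ?_, ?_⟩
  · have g1 : ((p.natAbs : ℕ) : ℝ) = |(p : ℝ) / q| * q := by
      rw [abs_div, abs_of_pos hq, div_mul_cancel₀ _ hq.ne', Nat.cast_natAbs]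
      push_cast
      rfl
    have g2 : ((p.natAbs : ℕ) : ℝ) ≤ (n : ℝ) ^ (C + 1) := by
      rw [g1, pow_succ, mul_comm ((n : ℝ) ^ C)]
      have g3 : (q : ℝ) ≤ (n : ℝ) ^ C := by exact_mod_cast a2
      have g4 : |(p : ℝ) / q| ≤ n := by linarith
      exact mul_le_mul g4 g3 hq.le hn0.le
    exact_mod_cast g2
  · have e1 : ((p.sign * q : ℤ) : ℝ) / ((p.natAbs : ℕ) : ℝ) = ((p : ℝ) / q)⁻¹ := by
      have g1 : ((p.natAbs : ℕ) : ℝ) = (p.sign : ℝ) * p := by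
        rw [Nat.cast_natAbs]
        have := Int.sign_mul_self p
        exact_mod_cast congrArg (fun t : ℤ => (t : ℝ)) this.symm
      have hs : (p.sign : ℝ) ≠ 0 := by
        have : p.sign ≠ 0 := by rwa [Ne, Int.sign_eq_zero_iff_zero]
        exact_mod_cast this
      rw [g1]
      push_cast
      field_simp
    rw [e1]
    have e2 : x⁻¹ - ((p : ℝ) / q)⁻¹ = -((x - p / q) * (x⁻¹ * ((p : ℝ) / q)⁻¹)) := by
      have : (p : ℝ) / q ≠ 0 := abs_pos.1 hr0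
      field_simp
      ring
    rw [e2, abs_neg, abs_mul, abs_mul, abs_inv, abs_inv]
    have g5 : |x|⁻¹ * |(p : ℝ) / q|⁻¹ ≤ 2 / |x| ^ 2 := by
      have g6 : |(p : ℝ) / q|⁻¹ ≤ (|x| / 2)⁻¹ := inv_anti₀ (by positivity) hr
      calc |x|⁻¹ * |(p : ℝ) / q|⁻¹ ≤ |x|⁻¹ * (|x| / 2)⁻¹ := mul_le_mul_of_nonneg_left g6 (by positivity)
        _ = 2 / |x| ^ 2 := by field_simp
    calc |x - p / q| * (|x|⁻¹ * |(p : ℝ) / q|⁻¹) ≤ 1 / (n : ℝ) ^ (N + 1) * (2 / |x| ^ 2) :=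
          mul_le_mul a3 g5 (by positivity) (by positivity)
      _ = (2 / |x| ^ 2) * (1 / (n : ℝ) ^ (N + 1)) := by ring
      _ ≤ 1 / (n : ℝ) ^ N := by
          apply pow_aux N (by omega)
          linarith

/-- the field of the real numbers which are approximable to infinite order along `𝓕` -/
def LF (𝓕 : Filter ℕ) (h𝓕 : 𝓕 ≤ atTop) : Subfield ℝ where
  carrier := {x | Appr 𝓕 x}
  mul_mem' := fun hx hy => appr_mul h𝓕 hx hy
  one_mem' := by
    have := appr_rat h𝓕 1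
    rwa [Rat.cast_one] at this
  add_mem' := fun hx hy => appr_add h𝓕 hx hy
  zero_mem' := by
    have := appr_rat h𝓕 0
    rwa [Rat.cast_zero] at this
  neg_mem' := fun hx => appr_neg hx
  inv_mem' := fun _ hx => appr_inv h𝓕 hx

lemma mem_LF {h𝓕 : 𝓕 ≤ atTop} {x : ℝ} : x ∈ LF 𝓕 h𝓕 ↔ Appr 𝓕 x := Iff.rfl

/-- simultaneous approximation of finitely many numbers, with a common denominator -/
lemma simul {ι : Type*} [Fintype ι] (x : ι → ℝ) (hx : ∀ i, Appr 𝓕 (x i)) :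
    ∃ C : ℕ, ∀ N : ℕ, ∀ᶠ n in 𝓕, ∃ (q : ℕ) (p : ι → ℤ), 0 < q ∧ q ≤ n ^ C ∧
      ∀ i, |x i - p i / q| ≤ 1 / (n : ℝ) ^ N := by
  classical
  choose C hC using hx
  refine ⟨∑ i, C i, fun N => ?_⟩
  filter_upwards [eventually_all.2 fun i => hC i N] with n hn
  choose p q h1 h2 h3 using hn
  refine ⟨∏ i, q i, fun i => p i * ∏ j ∈ Finset.univ.erase i, (q j : ℤ), Finset.prod_pos fun i _ => h1 i, ?_, ?_⟩
  · rw [← Finset.prod_pow_eq_pow_sum]
    exact Finset.prod_le_prod' fun i _ => h2 i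
  · intro i
    have e : ((∏ i, q i : ℕ) : ℝ) = (q i : ℝ) * ∏ j ∈ Finset.univ.erase i, (q j : ℝ) := by
      rw [← Finset.mul_prod_erase Finset.univ q (Finset.mem_univ i)]
      push_cast
      rfl
    have h4 : (q i : ℝ) ≠ 0 := by exact_mod_cast (h1 i).ne'
    have h5 : ∏ j ∈ Finset.univ.erase i, (q j : ℝ) ≠ 0 := by
      rw [Finset.prod_ne_zero_iff]
      intro j _
      exact_mod_cast (h1 j).ne'
    have e2 : ((p i * ∏ j ∈ Finset.univ.erase i, (q j : ℤ) : ℤ) : ℝ) / ((∏ i, q i : ℕ) : ℝ) = (p i : ℝ) / q i := by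
      rw [e]
      push_cast
      rw [mul_div_mul_right _ _ h5]
    rw [e2]
    exact h3 i

end Pool.Agent.K1H59.LZ
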