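import Pool.Agent.K1H59.LZ.Field
import Pool.Agent.R355.Greedy
import Pool.Agent.K1H76.MW.Main

/-!
# Odd zeta values outside of finite-dimensional spaces over the field `LF 𝓕`
-/

set_option autoImplicit false

namespace Pool.Agent.K1H59.LZ

open Filter Module

variable {𝓕 : Filter ℕ}

/-- Let `L` be a field of real numbers which are approximable to infinite order along `𝓕`, let `W` be an `L`-space of
dimension at most `S` containing `1`, and let `z` be a finite family of real numbers. For all `q0` there is `q ≥ q0`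
such that all the `z j` in `W` satisfy `|q z_j - p| < q^(-1/S)` for some integer `p`. -/
lemma approx_of_mem [𝓕.NeBot] (h𝓕 : 𝓕 ≤ atTop) (L : Type*) [Field L] [Algebra L ℝ]
    (hL : ∀ x : L, Appr 𝓕 (algebraMap L ℝ x)) {ι : Type*} [Fintype ι] (W : Submodule L ℝ) [FiniteDimensional L W] (h1 : (1 : ℝ) ∈ W)
    {S : ℕ} (hS : finrank L W ≤ S) (z : ι → ℝ) (q0 : ℕ) :
    ∃ q : ℕ, q0 ≤ q ∧ 1 ≤ q ∧ ∀ j, z j ∈ W → ∃ p : ℤ, |(q : ℝ) * z j - p| < (q : ℝ) ^ (-(1 / (S : ℝ))) := by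
  classical
  -- a complement of the line of `1`
  let u : W := ⟨1, h1⟩
  have hu : u ≠ 0 := fun h => one_ne_zero (congrArg Subtype.val h)
  obtain ⟨C0, hC0⟩ := Submodule.exists_isCompl (Submodule.span L {u})
  have hfr : finrank L C0 + 1 = finrank L W := by
    have h2 := Submodule.finrank_add_eq_of_isCompl hC0
    rw [finrank_span_singleton hu] at h2
    omega
  obtain ⟨D, hD⟩ : ∃ D, D = finrank L C0 := ⟨_, rfl⟩
  have hDS : D + 1 ≤ S := by omega
  have hfree : Module.Free L C0 := Module.Free.of_divisionRing L C0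
  let B := Module.finBasisOfFinrankEq L C0 hD.symm
  let v : Fin D → ℝ := fun i => ((B i : C0) : W)
  -- expansion of the elements of `W`
  have hexp : ∀ x ∈ W, ∃ (r : L) (c : Fin D → L), x = algebraMap L ℝ r + ∑ i, algebraMap L ℝ (c i) * v i := by
    intro x hx
    obtain ⟨y, hy, c, hc, hyc⟩ := Submodule.mem_sup.1
      (show (⟨x, hx⟩ : W) ∈ Submodule.span L {u} ⊔ C0 by rw [hC0.sup_eq_top]; exact Submodule.mem_top)
    obtain ⟨r, hr⟩ := Submodule.mem_span_singleton.1 hy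
    refine ⟨r, fun i => B.repr ⟨c, hc⟩ i, ?_⟩
    have h3 : (⟨c, hc⟩ : C0) = ∑ i, B.repr ⟨c, hc⟩ i • B i := (B.sum_repr ⟨c, hc⟩).symm
    have h4 : ((c : W) : ℝ) = ∑ i, algebraMap L ℝ (B.repr ⟨c, hc⟩ i) * v i := by
      have h5 := congrArg (fun t : C0 => ((t : W) : ℝ)) h3
      simp only [Submodule.coe_sum, Submodule.coe_smul] at h5
      rw [h5]
      apply Finset.sum_congr rfl
      intro i _
      rw [Algebra.smul_def]
    have h6 : x = ((y : W) : ℝ) + ((c : W) : ℝ) := by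
      have := congrArg (fun t : W => (t : ℝ)) hyc
      simpa using this.symm
    rw [h6, h4, ← hr]
    congr 1
    show r • (1 : ℝ) = algebraMap L ℝ r
    rw [Algebra.smul_def, mul_one]
  choose! r c hrc using hexp
  -- simultaneous approximation of the coefficients
  obtain ⟨C, hC⟩ := simul (𝓕 := 𝓕) (fun a : ι × Option (Fin D) => algebraMap L ℝ (match a.2 with
      | none => r (z a.1)
      | some i => c (z a.1) i)) (fun a => hL _)
  obtain ⟨A, hA1, hA⟩ : ∃ A : ℝ, 1 ≤ A ∧ ∀ j, ∑ i, (|algebraMap L ℝ (c (z j) i)| + 1) ≤ A := by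
    refine ⟨1 + ∑ j, ∑ i, (|algebraMap L ℝ (c (z j) i)| + 1), ?_, fun j => ?_⟩
    · have : 0 ≤ ∑ j, ∑ i, (|algebraMap L ℝ (c (z j) i)| + 1) :=
        Finset.sum_nonneg fun _ _ => Finset.sum_nonneg fun _ _ => by positivity
      linarith
    · have : ∑ i, (|algebraMap L ℝ (c (z j) i)| + 1) ≤ ∑ j, ∑ i, (|algebraMap L ℝ (c (z j) i)| + 1) :=
        Finset.single_le_sum (f := fun j => ∑ i, (|algebraMap L ℝ (c (z j) i)| + 1))
          (fun _ _ => Finset.sum_nonneg fun _ _ => by positivity) (Finset.mem_univ j)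
      linarith
  obtain ⟨M, hM⟩ : ∃ M : ℕ, M = q0 + 1 := ⟨_, rfl⟩
  have hM1 : (1 : ℝ) ≤ M := by exact_mod_cast (by omega : 1 ≤ M)
  obtain ⟨B1, hB1⟩ : ∃ B1 : ℝ, B1 = M * (1 + ∑ i, |v i|) := ⟨_, rfl⟩
  have hB0 : 0 ≤ B1 := by
    rw [hB1]
    have : 0 ≤ ∑ i, |v i| := Finset.sum_nonneg fun _ _ => abs_nonneg _
    positivity
  -- the exponents
  obtain ⟨E, hE⟩ : ∃ E : ℕ, E = (S + 1) * C + 1 := ⟨_, rfl⟩
  obtain ⟨n0, hn0⟩ := exists_nat_gt ((A + B1) ^ S * M)
  obtain ⟨n, hn, hnn⟩ := ((hC (E + D * E)).and (h𝓕 (eventually_ge_atTop (n0 + 1)))).exists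
  obtain ⟨q, p, hq, hqC, hp⟩ := hn
  have hnr : (1 : ℝ) ≤ n := by exact_mod_cast (by omega : 1 ≤ n)
  have hn_pos : (0 : ℝ) < n := by linarith
  have hT : 1 ≤ n ^ E := Nat.one_le_pow _ _ (by omega)
  obtain ⟨t, ht1, ht2, ht⟩ := Pool.Agent.R355.dirichlet (fun i => (M : ℝ) * v i) hT
  choose w hw using ht
  have hq0 : (0 : ℝ) < q := by exact_mod_cast hq
  have hqC' : (q : ℝ) ≤ (n : ℝ) ^ C := by exact_mod_cast hqC
  have ht2' : (t : ℝ) ≤ (n : ℝ) ^ (D * E) := by
    have : t ≤ n ^ (D * E) := by rw [mul_comm, pow_mul]; exact ht2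
    exact_mod_cast this
  have ht0 : (1 : ℝ) ≤ t := by exact_mod_cast ht1
  have hq1 : (1 : ℝ) ≤ q := by exact_mod_cast hq
  refine ⟨q * (t * M), ?_, ?_, ?_⟩
  · have : 1 * (1 * q0) ≤ q * (t * M) := Nat.mul_le_mul hq (Nat.mul_le_mul ht1 (by omega))
    omega
  · have : 1 * (1 * 1) ≤ q * (t * M) := Nat.mul_le_mul hq (Nat.mul_le_mul ht1 (by omega))
    omega
  intro j hj
  refine ⟨t * M * p (j, none) + ∑ i, p (j, some i) * w i, ?_⟩
  have hp0 : |algebraMap L ℝ (r (z j)) - p (j, none) / q| ≤ 1 / (n : ℝ) ^ (E + D * E) := hp (j, none)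
  have hpi : ∀ i, |algebraMap L ℝ (c (z j) i) - p (j, some i) / q| ≤ 1 / (n : ℝ) ^ (E + D * E) := fun i => hp (j, some i)
  have e1 : ((q * (t * M) : ℕ) : ℝ) * z j - ((t * M * p (j, none) + ∑ i, p (j, some i) * w i : ℤ) : ℝ) =
      (∑ i, (p (j, some i) : ℝ) * ((t : ℝ) * (M * v i) - w i)) +
        q * t * M * ((algebraMap L ℝ (r (z j)) - p (j, none) / q) + ∑ i, (algebraMap L ℝ (c (z j) i) - p (j, some i) / q) * v i) := by
    have e2 := hrc (z j) hj
    have e3 : (q : ℝ) * t * M * ((algebraMap L ℝ (r (z j)) - p (j, none) / q) +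
        ∑ i, (algebraMap L ℝ (c (z j) i) - p (j, some i) / q) * v i) =
        (q : ℝ) * t * M * (algebraMap L ℝ (r (z j)) + ∑ i, algebraMap L ℝ (c (z j) i) * v i) - t * M * p (j, none) -
          ∑ i, (p (j, some i) : ℝ) * (t * (M * v i)) := by
      have e4 : ∑ i, (algebraMap L ℝ (c (z j) i) - p (j, some i) / q) * v i =
          ∑ i, algebraMap L ℝ (c (z j) i) * v i - ∑ i, ((p (j, some i) : ℝ) / q) * v i := by
        rw [← Finset.sum_sub_distrib]
        exact Finset.sum_congr rfl fun i _ => by ring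
      have e5 : ∑ i, (p (j, some i) : ℝ) * (t * (M * v i)) = q * t * M * ∑ i, ((p (j, some i) : ℝ) / q) * v i := by
        rw [Finset.mul_sum]
        refine Finset.sum_congr rfl fun i _ => ?_
        field_simp
      rw [e4, e5]
      field_simp
      ring
    rw [e3, ← e2]
    push_cast
    have e6 : ∑ i, (p (j, some i) : ℝ) * ((t : ℝ) * (M * v i) - w i) =
        ∑ i, (p (j, some i) : ℝ) * (t * (M * v i)) - ∑ i, (p (j, some i) : ℝ) * w i := by
      rw [← Finset.sum_sub_distrib]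
      exact Finset.sum_congr rfl fun i _ => by ring
    rw [e6]
    ring
  rw [e1]
  -- the size of the numerators
  have hnum : ∀ i, |(p (j, some i) : ℝ)| ≤ (n : ℝ) ^ C * (|algebraMap L ℝ (c (z j) i)| + 1) := by
    intro i
    have g1 : |(p (j, some i) : ℝ) / q| ≤ |algebraMap L ℝ (c (z j) i)| + 1 := by
      have g2 : |(p (j, some i) : ℝ) / q| ≤ |algebraMap L ℝ (c (z j) i)| + |algebraMap L ℝ (c (z j) i) - p (j, some i) / q| := by
        calc |(p (j, some i) : ℝ) / q| = |algebraMap L ℝ (c (z j) i) - (algebraMap L ℝ (c (z j) i) - p (j, some i) / q)| := by ring_nf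
          _ ≤ _ := abs_sub _ _
      have g3 : 1 / (n : ℝ) ^ (E + D * E) ≤ 1 := by
        rw [div_le_one (by positivity)]
        exact one_le_pow₀ hnr
      linarith [hpi i]
    have g4 : |(p (j, some i) : ℝ)| = q * |(p (j, some i) : ℝ) / q| := by
      rw [abs_div, abs_of_pos hq0, mul_div_cancel₀ _ hq0.ne']
    rw [g4]
    exact mul_le_mul hqC' g1 (abs_nonneg _) (by positivity)
  have hX : |∑ i, (p (j, some i) : ℝ) * ((t : ℝ) * (M * v i) - w i)| ≤ A * ((n : ℝ) ^ C / (n : ℝ) ^ E) := by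
    calc |∑ i, (p (j, some i) : ℝ) * ((t : ℝ) * (M * v i) - w i)|
        ≤ ∑ i, |(p (j, some i) : ℝ) * ((t : ℝ) * (M * v i) - w i)| := Finset.abs_sum_le_sum_abs _ _
      _ ≤ ∑ i, ((n : ℝ) ^ C * (|algebraMap L ℝ (c (z j) i)| + 1)) * (1 / (n : ℝ) ^ E) := by
          apply Finset.sum_le_sum
          intro i _
          rw [abs_mul]
          have := (hw i).le
          push_cast at this
          exact mul_le_mul (hnum i) this (abs_nonneg _) (by positivity)
      _ = (∑ i, (|algebraMap L ℝ (c (z j) i)| + 1)) * ((n : ℝ) ^ C / (n : ℝ) ^ E) := by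
          rw [Finset.sum_mul]
          exact Finset.sum_congr rfl fun i _ => by ring
      _ ≤ A * ((n : ℝ) ^ C / (n : ℝ) ^ E) := mul_le_mul_of_nonneg_right (hA j) (by positivity)
  have hY : |(q : ℝ) * t * M * ((algebraMap L ℝ (r (z j)) - p (j, none) / q) +
      ∑ i, (algebraMap L ℝ (c (z j) i) - p (j, some i) / q) * v i)| ≤ B1 * ((n : ℝ) ^ C / (n : ℝ) ^ E) := by
    have g1 : |(algebraMap L ℝ (r (z j)) - p (j, none) / q) + ∑ i, (algebraMap L ℝ (c (z j) i) - p (j, some i) / q) * v i| ≤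
        (1 + ∑ i, |v i|) * (1 / (n : ℝ) ^ (E + D * E)) := by
      calc |(algebraMap L ℝ (r (z j)) - p (j, none) / q) + ∑ i, (algebraMap L ℝ (c (z j) i) - p (j, some i) / q) * v i|
          ≤ |algebraMap L ℝ (r (z j)) - p (j, none) / q| + |∑ i, (algebraMap L ℝ (c (z j) i) - p (j, some i) / q) * v i| := abs_add_le _ _
        _ ≤ 1 / (n : ℝ) ^ (E + D * E) + ∑ i, (1 / (n : ℝ) ^ (E + D * E)) * |v i| := by
            apply add_le_add hp0
            refine (Finset.abs_sum_le_sum_abs _ _).trans (Finset.sum_le_sum fun i _ => ?_)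
            rw [abs_mul]
            exact mul_le_mul_of_nonneg_right (hpi i) (abs_nonneg _)
        _ = (1 + ∑ i, |v i|) * (1 / (n : ℝ) ^ (E + D * E)) := by
            rw [← Finset.mul_sum]; ring
    rw [abs_mul, abs_of_nonneg (by positivity : (0 : ℝ) ≤ (q : ℝ) * t * M)]
    calc (q : ℝ) * t * M * |(algebraMap L ℝ (r (z j)) - p (j, none) / q) + ∑ i, (algebraMap L ℝ (c (z j) i) - p (j, some i) / q) * v i|
        ≤ ((n : ℝ) ^ C * (n : ℝ) ^ (D * E) * M) * ((1 + ∑ i, |v i|) * (1 / (n : ℝ) ^ (E + D * E))) := by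
          apply mul_le_mul _ g1 (abs_nonneg _) (by positivity)
          apply mul_le_mul_of_nonneg_right _ (by positivity)
          exact mul_le_mul hqC' ht2' (by positivity) (by positivity)
      _ = B1 * ((n : ℝ) ^ C / (n : ℝ) ^ E) := by
          rw [hB1, pow_add]
          field_simp
  have hZ : |(∑ i, (p (j, some i) : ℝ) * ((t : ℝ) * (M * v i) - w i)) +
        q * t * M * ((algebraMap L ℝ (r (z j)) - p (j, none) / q) + ∑ i, (algebraMap L ℝ (c (z j) i) - p (j, some i) / q) * v i)| ≤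
      (A + B1) * ((n : ℝ) ^ C / (n : ℝ) ^ E) := by
    refine (abs_add_le _ _).trans ?_
    linarith
  refine lt_of_le_of_lt hZ ?_
  -- compare with the power
  obtain ⟨X, hXd⟩ : ∃ X : ℝ, X = ((q * (t * M) : ℕ) : ℝ) := ⟨_, rfl⟩
  rw [← hXd]
  have hX0 : 0 < X := by rw [hXd]; push_cast; positivity
  have hXle : X ≤ (n : ℝ) ^ C * (n : ℝ) ^ (D * E) * M := by
    rw [hXd]
    push_cast
    calc (q : ℝ) * (t * M) = q * t * M := by ring
      _ ≤ _ := by
        apply mul_le_mul_of_nonneg_right _ (by positivity)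
        exact mul_le_mul hqC' ht2' (by positivity) (by positivity)
  have hS1 : (1 : ℝ) ≤ S := by exact_mod_cast (by omega : 1 ≤ S)
  have hAB : 0 < A + B1 := by linarith
  have g2 : ((A + B1) * ((n : ℝ) ^ C / (n : ℝ) ^ E)) ^ S * X < 1 := by
    have g3 : ((A + B1) * ((n : ℝ) ^ C / (n : ℝ) ^ E)) ^ S * X ≤
        ((A + B1) * ((n : ℝ) ^ C / (n : ℝ) ^ E)) ^ S * ((n : ℝ) ^ C * (n : ℝ) ^ (D * E) * M) :=
      mul_le_mul_of_nonneg_left hXle (by positivity)
    have g4 : ((A + B1) * ((n : ℝ) ^ C / (n : ℝ) ^ E)) ^ S * ((n : ℝ) ^ C * (n : ℝ) ^ (D * E) * M) =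
        (A + B1) ^ S * M * ((n : ℝ) ^ (C * S + C + D * E) / (n : ℝ) ^ (E * S)) := by
      rw [mul_pow, div_pow, ← pow_mul, ← pow_mul, pow_add, pow_add]
      ring
    have g5 : (n : ℝ) ^ (C * S + C + D * E) / (n : ℝ) ^ (E * S) ≤ 1 / n := by
      rw [div_le_div_iff₀ (by positivity) hn_pos, one_mul, ← pow_succ]
      apply pow_le_pow_right₀ hnr
      have g6 : (D + 1) * E ≤ S * E := Nat.mul_le_mul_right E hDS
      have g7 : C * S + C + 1 = E := by rw [hE]; ring
      nlinarith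
    have g6 : (A + B1) ^ S * M * ((n : ℝ) ^ (C * S + C + D * E) / (n : ℝ) ^ (E * S)) ≤ (A + B1) ^ S * M * (1 / n) :=
      mul_le_mul_of_nonneg_left g5 (by positivity)
    have g7 : (A + B1) ^ S * M * (1 / n) < 1 := by
      rw [mul_one_div, div_lt_one hn_pos]
      have : (n0 : ℝ) + 1 ≤ n := by exact_mod_cast hnn
      linarith
    linarith
  have g8 : (X ^ (-(1 / (S : ℝ)))) ^ S = X⁻¹ := by
    rw [← Real.rpow_natCast, ← Real.rpow_mul hX0.le, neg_mul, one_div, inv_mul_cancel₀ (by linarith), Real.rpow_neg_one]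
  by_contra hcon
  push Not at hcon
  have g9 := pow_le_pow_left₀ (by positivity) hcon S
  rw [g8] at g9
  have g10 : 1 ≤ ((A + B1) * ((n : ℝ) ^ C / (n : ℝ) ^ E)) ^ S * X := by
    have := mul_le_mul_of_nonneg_right g9 hX0.le
    rwa [inv_mul_cancel₀ hX0.ne'] at this
  linarith

/-- the number of odd zeta values outside of an `L`-space of small dimension -/
lemma outside [𝓕.NeBot] (h𝓕 : 𝓕 ≤ atTop) (L : Type*) [Field L] [Algebra L ℝ]
    (hL : ∀ x : L, Appr 𝓕 (algebraMap L ℝ x))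
    {b K s S : ℕ} (hK : 1 ≤ K) (hS : 1 ≤ S)
    (hs1 : (2 : ℝ) ^ (66 * S) * ((b : ℝ) + 1) * (K : ℝ) * Real.log (K + 1) ≤ (s : ℝ))
    (hs2 : (2 : ℝ) ^ (132 * S) * ((b : ℝ) + 1) * (K : ℝ) ^ 3 * Real.log (K + 1) ≤ (s : ℝ) ^ 2)
    (W : Submodule L ℝ) [FiniteDimensional L W] (h1 : (1 : ℝ) ∈ W) (hW : finrank L W ≤ S) :
    K ≤ Set.ncard {j : ℕ | b < j ∧ j ≤ s ∧ Odd j ∧ (∑' n : ℕ, 1 / ((n : ℝ) + 1) ^ j) ∉ W} := by
  obtain ⟨q0, hq0⟩ := (Pool.Agent.K1H76.MW.main b K s S hK hS hs1 hs2).2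
  obtain ⟨q, hqq, hq1, hq⟩ := approx_of_mem h𝓕 L hL W h1 hW
    (fun j : Fin (s + 1) => ∑' n : ℕ, 1 / ((n : ℝ) + 1) ^ (j : ℕ)) q0
  refine (hq0 q hqq).trans (Set.ncard_le_ncard ?_ ?_)
  · rintro j ⟨g1, g2, g3, g4⟩
    refine ⟨g1, g2, g3, fun hmem => ?_⟩
    obtain ⟨p, hp⟩ := hq ⟨j, by omega⟩ hmem
    exact absurd hp (not_lt.2 (g4 p))
  · exact (Set.finite_Iic s).subset fun j hj => hj.2.1

/-- disjoint sets of odd zeta values which are linearly independent over an extension `F` of `L` modulo an `F`-space -/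
theorem disjoint_sets [𝓕.NeBot] (h𝓕 : 𝓕 ≤ atTop) (L : Type*) [Field L] [Algebra L ℝ]
    (hL : ∀ x : L, Appr 𝓕 (algebraMap L ℝ x))
    {b K s S d v : ℕ} (hK : 1 ≤ K) (hS : 1 ≤ S)
    (hs1 : (2 : ℝ) ^ (66 * (d * (v + S))) * ((b : ℝ) + 1) * ((K : ℝ) * S) * Real.log ((K : ℝ) * S + 1) ≤
      (s : ℝ))
    (hs2 : (2 : ℝ) ^ (132 * (d * (v + S))) * ((b : ℝ) + 1) * ((K : ℝ) * S) ^ 3 * Real.log ((K : ℝ) * S + 1) ≤
      (s : ℝ) ^ 2)
    (F : IntermediateField L ℝ) [FiniteDimensional L F] (hF : finrank L F ≤ d)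
    (V : Submodule F ℝ) [Module.Finite F V] (hV : finrank F V ≤ v) :
    ∃ J : Fin K → Finset ℕ, (∀ i i', i ≠ i' → Disjoint (J i) (J i')) ∧ ∀ i, (J i).card = S ∧
      (∀ j ∈ J i, b < j ∧ j ≤ s ∧ Odd j) ∧
      LinearIndependent F (fun j : J i => V.mkQ (∑' n : ℕ, 1 / ((n : ℝ) + 1) ^ (j : ℕ))) := by
  classical
  have hd : 1 ≤ d := le_trans (Nat.one_le_iff_ne_zero.2 finrank_pos.ne') hF
  obtain ⟨J, hJd, hJ⟩ := Pool.Agent.R355.greedy (S := S) V K hV (fun j => ∑' n : ℕ, 1 / ((n : ℝ) + 1) ^ j)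
    ((Finset.range (s + 1)).filter fun j => b < j ∧ Odd j) (by
      intro U hU hUd T hT
      -- the `L`-space spanned by `U` and `1`
      have hST : IsScalarTower L F (U.restrictScalars L) := ⟨fun a c x => Subtype.ext (smul_assoc a c (x : ℝ))⟩
      have hUF : Module.Finite F (U.restrictScalars L) := hU
      have hUQ : FiniteDimensional L (U.restrictScalars L) := Module.Finite.trans F (U.restrictScalars L)
      have h3 : finrank L (U.restrictScalars L) ≤ d * (v + S - 1) := by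
        have e : finrank L (U.restrictScalars L) = finrank L F * finrank F U :=
          (Module.finrank_mul_finrank L F (U.restrictScalars L)).symm
        rw [e]
        exact Nat.mul_le_mul hF (by omega)
      have h4 : finrank L (U.restrictScalars L ⊔ Submodule.span L {(1 : ℝ)} : Submodule L ℝ) ≤ d * (v + S) := by
        have h5 := Submodule.finrank_add_le_finrank_add_finrank (U.restrictScalars L) (Submodule.span L {(1 : ℝ)})
        have h6 : finrank L (Submodule.span L {(1 : ℝ)}) ≤ 1 := finrank_span_le_card {(1 : ℝ)} |>.trans (by simp)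
        have h7 : d * (v + S - 1) + d = d * (v + S) := by
          have : v + S = (v + S - 1) + 1 := by omega
          conv_rhs => rw [this]
          ring
        omega
      have hKS : 1 ≤ K * S := Nat.mul_pos hK hS
      have h8 := outside h𝓕 L hL (K := K * S) hKS (Nat.mul_pos hd (by omega) : 1 ≤ d * (v + S))
        (by push_cast; exact hs1) (by push_cast; exact hs2) (U.restrictScalars L ⊔ Submodule.span L {(1 : ℝ)})
        (Submodule.mem_sup_right (Submodule.mem_span_singleton_self _)) h4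
      by_contra hcon
      push Not at hcon
      have h9 : {j : ℕ | b < j ∧ j ≤ s ∧ Odd j ∧ (∑' n : ℕ, 1 / ((n : ℝ) + 1) ^ j) ∉
          (U.restrictScalars L ⊔ Submodule.span L {(1 : ℝ)} : Submodule L ℝ)} ⊆ (T : Set ℕ) := by
        rintro j ⟨g1, g2, g3, g4⟩
        by_contra hjT
        have := hcon j (Finset.mem_filter.2 ⟨Finset.mem_range.2 (by omega), g1, g3⟩) hjT
        exact g4 (Submodule.mem_sup_left this)
      have h10 := Set.ncard_le_ncard h9 T.finite_toSet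
      rw [Set.ncard_coe_finset] at h10
      omega)
  refine ⟨J, hJd, fun i => ⟨(hJ i).2.1, fun j hj => ?_, (hJ i).2.2⟩⟩
  have := (hJ i).1 hj
  rw [Finset.mem_filter, Finset.mem_range] at this
  exact ⟨this.2.1, by omega, this.2.2⟩

end Pool.Agent.K1H59.LZ
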