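import Pool.Agent.K1H59.LZ.Field

/-!
# Consequences of simultaneous measures for the fields `LF 𝓕`
-/

set_option autoImplicit false

namespace Pool.Agent.K1H59.LZ

open Filter Module

variable {𝓕 : Filter ℕ}

/-- finitely many elements of the field have arbitrarily good simultaneous approximations -/
lemma simul_w [𝓕.NeBot] (h𝓕 : 𝓕 ≤ atTop) {ι : Type*} [Fintype ι] (x : ι → ℝ) (hx : ∀ i, Appr 𝓕 (x i))
    (w q0 : ℕ) : ∃ q : ℕ, q0 ≤ q ∧ 1 ≤ q ∧ ∃ p : ι → ℤ, ∀ i, |(q : ℝ) * x i - p i| ≤ 1 / (q : ℝ) ^ w := by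
  obtain ⟨C, hC⟩ := simul x hx
  obtain ⟨n, ⟨q, p, h1, h2, h3⟩, hn⟩ :=
    ((hC ((C + 1) * (w + 1))).and (h𝓕 (eventually_ge_atTop (q0 + 1)))).exists
  have hn1 : 1 ≤ n := by omega
  have hnr : (1 : ℝ) ≤ n := by exact_mod_cast hn1
  have hq1 : (1 : ℝ) ≤ q := by exact_mod_cast h1
  refine ⟨q * n, ?_, Nat.mul_pos h1 hn1, fun i => p i * n, fun i => ?_⟩
  · calc q0 ≤ 1 * n := by omega
      _ ≤ q * n := Nat.mul_le_mul_right n h1
  · have hqn : ((q * n : ℕ) : ℝ) ≤ (n : ℝ) ^ (C + 1) := by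
      have : q * n ≤ n ^ (C + 1) := by rw [pow_succ]; exact Nat.mul_le_mul_right n h2
      exact_mod_cast this
    have h0 : (0 : ℝ) < ((q * n : ℕ) : ℝ) := by push_cast; positivity
    have e : ((q * n : ℕ) : ℝ) * x i - ((p i * n : ℤ) : ℝ) = ((q * n : ℕ) : ℝ) * (x i - p i / q) := by
      push_cast
      field_simp
    rw [e, abs_mul, abs_of_pos h0]
    calc ((q * n : ℕ) : ℝ) * |x i - p i / q|
        ≤ ((q * n : ℕ) : ℝ) * (1 / (n : ℝ) ^ ((C + 1) * (w + 1))) := mul_le_mul_of_nonneg_left (h3 i) h0.le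
      _ ≤ ((q * n : ℕ) : ℝ) * (1 / ((q * n : ℕ) : ℝ) ^ (w + 1)) := by
          apply mul_le_mul_of_nonneg_left _ h0.le
          apply one_div_le_one_div_of_le (by positivity)
          rw [pow_mul]
          exact pow_le_pow_left₀ h0.le hqn _
      _ = 1 / ((q * n : ℕ) : ℝ) ^ w := by
          rw [pow_succ]
          field_simp

/-- one of the numbers is outside of the field if they have a simultaneous measure of irrationality -/
lemma not_all_mem [𝓕.NeBot] (h𝓕 : 𝓕 ≤ atTop) (z : ℕ → ℝ) (P : ℕ → Prop) (B : ℕ) (hPB : ∀ j, P j → j < B) (κ : ℕ)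
    (hm : ∀ᶠ q : ℕ in atTop, ∀ p : ℕ → ℤ, ∃ j, P j ∧ 1 / (q : ℝ) ^ κ ≤ |(q : ℝ) * z j - p j|) :
    ∃ j, P j ∧ ¬ Appr 𝓕 (z j) := by
  classical
  by_contra hcon
  push Not at hcon
  obtain ⟨q0, hq0⟩ := eventually_atTop.1 hm
  obtain ⟨q, h1, h2, p, hp⟩ := simul_w h𝓕 (fun j : {j : Fin B // P j} => z j) (fun j => hcon _ j.2) (κ + 1) (q0 + 2)
  obtain ⟨j, hj, hle⟩ := hq0 q (by omega) (fun j => if h : ∃ h' : j < B, P j then p ⟨⟨j, h.1⟩, h.2⟩ else 0)
  have hjB := hPB j hj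
  have h3 := hp ⟨⟨j, hjB⟩, hj⟩
  rw [dif_pos ⟨hjB, hj⟩] at hle
  have h4 := hle.trans h3
  have hq : (1 : ℝ) < q := by exact_mod_cast (by omega : 1 < q)
  have h5 : 1 / (q : ℝ) ^ (κ + 1) < 1 / (q : ℝ) ^ κ :=
    one_div_lt_one_div_of_lt (by positivity) (pow_lt_pow_right₀ hq (by omega))
  linarith

/-- a number with a finite exponent of irrationality is not in the field -/
lemma not_mem_of_measure [𝓕.NeBot] (h𝓕 : 𝓕 ≤ atTop) (x c : ℝ) (hc : 0 < c) (κ : ℕ)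
    (hm : ∀ (p : ℤ) (q : ℕ), 0 < q → c / (q : ℝ) ^ κ ≤ |x - p / q|) : ¬ Appr 𝓕 x := by
  intro hx
  obtain ⟨m, hm'⟩ := exists_nat_gt (1 / c)
  obtain ⟨q, h1, h2, p, hp⟩ := simul_w h𝓕 (fun _ : Unit => x) (fun _ => hx) (κ + 1) (m + 1)
  have hq : (0 : ℝ) < q := by exact_mod_cast h2
  have hq1 : (1 : ℝ) ≤ q := by exact_mod_cast h2
  have h3 := hm (p ()) q h2
  have h4 := hp ()
  have h5 : |x - p () / q| ≤ |(q : ℝ) * x - p ()| := by
    have e : (q : ℝ) * x - p () = q * (x - p () / q) := by field_simp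
    rw [e, abs_mul, abs_of_pos hq]
    exact le_mul_of_one_le_left (abs_nonneg _) hq1
  have h6 : c / (q : ℝ) ^ κ ≤ 1 / (q : ℝ) ^ (κ + 1) := by linarith
  rw [div_le_div_iff₀ (by positivity) (by positivity), pow_succ] at h6
  have h7 : c * q ≤ 1 := by
    have h8 : (0 : ℝ) < (q : ℝ) ^ κ := by positivity
    have : (c * q) * (q : ℝ) ^ κ ≤ 1 * (q : ℝ) ^ κ := by linarith
    exact le_of_mul_le_mul_right this h8
  have h8 : 1 / c < q := by
    have : (m : ℝ) + 1 ≤ q := by exact_mod_cast h1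
    linarith
  rw [div_lt_iff₀ hc] at h8
  linarith

/-- the dimension of the span over `L` of `1` and three numbers which are not close to rational lines -/
lemma three_le_finrank [𝓕.NeBot] (h𝓕 : 𝓕 ≤ atTop) (L : Type*) [Field L] [Algebra L ℝ]
    (hL : ∀ x : L, Appr 𝓕 (algebraMap L ℝ x)) (z : Fin 4 → ℝ) (hz : z 0 = 1) (c : ℝ) (hc : 0 < c) (κ : ℕ)
    (hm : ∀ (q : ℕ) (a b : Fin 4 → ℤ) (θ H : ℝ), 0 < q → (q : ℝ) ≤ H → (∀ i, i ≠ 0 → |(b i : ℝ)| ≤ H) →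
      ∃ i, i ≠ 0 ∧ c / H ^ κ ≤ |z i - ((a i : ℝ) + θ * (b i : ℝ)) / q|) :
    3 ≤ finrank L (Submodule.span L (Set.range z)) := by
  classical
  by_contra hcon
  obtain ⟨W, hW⟩ : ∃ W, W = Submodule.span L (Set.range z) := ⟨_, rfl⟩
  rw [← hW] at hcon
  have hfin : FiniteDimensional L W := by
    rw [hW]
    exact FiniteDimensional.span_of_finite L (Set.finite_range z)
  have hmem : ∀ i, z i ∈ W := fun i => hW ▸ Submodule.subset_span ⟨i, rfl⟩
  have h1 : (1 : ℝ) ∈ W := hz ▸ hmem 0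
  let u : W := ⟨1, h1⟩
  have hu : u ≠ 0 := fun h => one_ne_zero (congrArg Subtype.val h)
  obtain ⟨C0, hC0⟩ := Submodule.exists_isCompl (Submodule.span L {u})
  have hfr : finrank L C0 + 1 = finrank L W := by
    have h2 := Submodule.finrank_add_eq_of_isCompl hC0
    rw [finrank_span_singleton hu] at h2
    omega
  have hC1 : finrank L C0 ≤ 1 := by omega
  have hfree : Module.Free L C0 := Module.Free.of_divisionRing L C0
  obtain ⟨g, hg⟩ := (finrank_le_one_iff (K := L) (V := C0)).1 hC1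
  obtain ⟨θ, hθ⟩ : ∃ θ : ℝ, θ = ((g : W) : ℝ) := ⟨_, rfl⟩
  have hexp : ∀ i, ∃ r s : L, z i = algebraMap L ℝ r + θ * algebraMap L ℝ s := by
    intro i
    obtain ⟨y, hy, e, he, hye⟩ := Submodule.mem_sup.1
      (show (⟨z i, hmem i⟩ : W) ∈ Submodule.span L {u} ⊔ C0 by rw [hC0.sup_eq_top]; exact Submodule.mem_top)
    obtain ⟨r, hr⟩ := Submodule.mem_span_singleton.1 hy
    obtain ⟨s, hs⟩ := hg ⟨e, he⟩
    refine ⟨r, s, ?_⟩
    have h6 : z i = ((y : W) : ℝ) + ((e : W) : ℝ) := by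
      have := congrArg (fun t : W => (t : ℝ)) hye
      simpa using this.symm
    have h7 : ((y : W) : ℝ) = algebraMap L ℝ r := by
      rw [← hr]
      show r • (1 : ℝ) = algebraMap L ℝ r
      rw [Algebra.smul_def, mul_one]
    have h8 : ((e : W) : ℝ) = θ * algebraMap L ℝ s := by
      have h9 := congrArg (fun t : C0 => ((t : W) : ℝ)) hs
      simp only [Submodule.coe_smul] at h9
      rw [← h9, hθ, Algebra.smul_def, mul_comm]
    rw [h6, h7, h8]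
  choose r s hrs using hexp
  obtain ⟨C, hC⟩ := simul (𝓕 := 𝓕) (fun a : Fin 4 ⊕ Fin 4 => algebraMap L ℝ (Sum.elim r s a)) (fun a => hL _)
  obtain ⟨m, hm0⟩ := exists_nat_gt ((1 + |θ|) / c + ∑ i, (|algebraMap L ℝ (s i)| + 1))
  have hsum : ∀ i, |algebraMap L ℝ (s i)| + 1 ≤ ∑ i, (|algebraMap L ℝ (s i)| + 1) := fun i =>
    Finset.single_le_sum (f := fun i => |algebraMap L ℝ (s i)| + 1) (fun _ _ => by positivity) (Finset.mem_univ i)
  have hsum0 : 0 ≤ ∑ i, (|algebraMap L ℝ (s i)| + 1) := Finset.sum_nonneg fun _ _ => by positivity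
  have hθc : 0 ≤ (1 + |θ|) / c := by positivity
  obtain ⟨n, ⟨q, p, g1, g2, g3⟩, hn⟩ :=
    ((hC ((C + 1) * κ + 1)).and (h𝓕 (eventually_ge_atTop (m + 1)))).exists
  have hnm : (m : ℝ) + 1 ≤ n := by exact_mod_cast hn
  have hm00 : (0 : ℝ) ≤ m := by positivity
  have hn1 : (1 : ℝ) ≤ n := by linarith
  have hn0 : (0 : ℝ) < n := by linarith
  have hq0 : (0 : ℝ) < q := by exact_mod_cast g1
  have hqn : (q : ℝ) ≤ (n : ℝ) ^ C := by exact_mod_cast g2
  have hErr : ∀ i, |z i - ((p (Sum.inl i) : ℝ) + θ * (p (Sum.inr i) : ℝ)) / q| ≤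
      (1 + |θ|) * (1 / (n : ℝ) ^ ((C + 1) * κ + 1)) := by
    intro i
    have e : z i - ((p (Sum.inl i) : ℝ) + θ * (p (Sum.inr i) : ℝ)) / q =
        (algebraMap L ℝ (r i) - p (Sum.inl i) / q) + θ * (algebraMap L ℝ (s i) - p (Sum.inr i) / q) := by
      rw [hrs i]
      ring
    have a1 : |algebraMap L ℝ (r i) - p (Sum.inl i) / q| ≤ 1 / (n : ℝ) ^ ((C + 1) * κ + 1) := g3 (Sum.inl i)
    have a2 : |algebraMap L ℝ (s i) - p (Sum.inr i) / q| ≤ 1 / (n : ℝ) ^ ((C + 1) * κ + 1) := g3 (Sum.inr i)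
    rw [e]
    refine (abs_add_le _ _).trans ?_
    rw [abs_mul]
    have a3 := mul_le_mul_of_nonneg_left a2 (abs_nonneg θ)
    linarith
  have hb : ∀ i, i ≠ 0 → |(p (Sum.inr i) : ℝ)| ≤ (n : ℝ) ^ (C + 1) := by
    intro i _
    have a2 : |algebraMap L ℝ (s i) - p (Sum.inr i) / q| ≤ 1 / (n : ℝ) ^ ((C + 1) * κ + 1) := g3 (Sum.inr i)
    have a3 : 1 / (n : ℝ) ^ ((C + 1) * κ + 1) ≤ 1 := by
      rw [div_le_one (by positivity)]
      exact one_le_pow₀ hn1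
    have a4 : |(p (Sum.inr i) : ℝ) / q| ≤ |algebraMap L ℝ (s i)| + |algebraMap L ℝ (s i) - p (Sum.inr i) / q| := by
      calc |(p (Sum.inr i) : ℝ) / q| = |algebraMap L ℝ (s i) - (algebraMap L ℝ (s i) - p (Sum.inr i) / q)| := by
            ring_nf
        _ ≤ _ := abs_sub _ _
    have a5 : |(p (Sum.inr i) : ℝ) / q| ≤ n := by
      have := hsum i
      linarith
    have a6 : |(p (Sum.inr i) : ℝ)| = q * |(p (Sum.inr i) : ℝ) / q| := by
      rw [abs_div, abs_of_pos hq0, mul_div_cancel₀ _ hq0.ne']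
    rw [a6, pow_succ]
    exact mul_le_mul hqn a5 (abs_nonneg _) (by positivity)
  have hqH : (q : ℝ) ≤ (n : ℝ) ^ (C + 1) := hqn.trans (pow_le_pow_right₀ hn1 (by omega))
  obtain ⟨i, hi0, hi⟩ := hm q (fun i => p (Sum.inl i)) (fun i => p (Sum.inr i)) θ ((n : ℝ) ^ (C + 1)) g1 hqH hb
  have h9 := hi.trans (hErr i)
  rw [← pow_mul, pow_succ, mul_one_div, div_le_div_iff₀ (by positivity) (by positivity)] at h9
  have h10 : c * n ≤ 1 + |θ| := by
    have h8 : (0 : ℝ) < (n : ℝ) ^ ((C + 1) * κ) := by positivity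
    have : (c * n) * (n : ℝ) ^ ((C + 1) * κ) ≤ (1 + |θ|) * (n : ℝ) ^ ((C + 1) * κ) := by linarith
    exact le_of_mul_le_mul_right this h8
  have h11 : (1 + |θ|) / c < n := by linarith
  rw [div_lt_iff₀ hc] at h11
  linarith

end Pool.Agent.K1H59.LZ
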